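import Pool.Agent.LinK.K0

/-!
# Package LinP-P0: polycyclic families of affine bijections with inputs, definitions (pure algebra)
-/

set_option autoImplicit false

namespace Pool.Agent.LinP

open Pool.Agent.LinK

/-- `f_(l-1)^(e_(l-1)) ⋯ f_0^(e_0)` -/
def word {α : Type*} (f : ℕ → α → α) (e : ℕ → ℕ) : ℕ → α → α
  | 0, u => u
  | l + 1, u => (f l)^[e l] (word f e l u)

variable {V : Type*} [AddCommGroup V]

/-- the differences of inputs, and the vectors `g_j g_l 0 - g_l w 0`, `j < l`, `g_j = f j + b₀`,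
`w` a word in `g_0 .. g_(l-1)` with exponents at most `E` and the linear part `A_l⁻¹ A_j A_l` -/
def gensP (k E : ℕ) (f : ℕ → V → V) (A : ℕ → V →+ V) (R : Set V) (b₀ : V) : Set V :=
  {z | ∃ b ∈ R, ∃ b' ∈ R, z = b - b'} ∪
    {z | ∃ l, l < k ∧ ∃ j, j < l ∧ ∃ e : ℕ → ℕ, (∀ i, i < l → e i ≤ E) ∧
      (∀ u, A j (A l u) = A l (word (fun i => A i) e l u)) ∧
      z = (f j (f l 0 + b₀) + b₀) - (f l (word (fun i u => f i u + b₀) e l 0) + b₀)}

/-- the subgroup of the translations -/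
def WP (k E : ℕ) (f : ℕ → V → V) (A : ℕ → V →+ V) (R : Set V) (b₀ : V) : AddSubgroup V :=
  AddSubgroup.closure (iterSets (gensP k E f A R b₀) (fun j => A j) k)

/-- the points `g_(l-1)^(i_(l-1)) ⋯ g_0^(i_0) u`, `u ∈ x + W`, `g_j = f j + b₀` -/
def OP (k E : ℕ) (f : ℕ → V → V) (A : ℕ → V →+ V) (R : Set V) (b₀ x : V) (l : ℕ) : Set V :=
  iterSets {u | u - x ∈ WP k E f A R b₀} (fun j u => f j u + b₀) l

end Pool.Agent.LinP
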