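import Pool.Agent.H45Pc.Core

/-!
# Package LinP-P1: polycyclic linear parts, reachable points and their number (pure algebra)
-/

set_option autoImplicit false

namespace Pool.Agent.LinP

open Pool.Agent.LinK Pool.Agent.H45Pc

variable {V : Type*} [AddCommGroup V]

theorem injA {k : ℕ} {f : ℕ → V → V} {A : ℕ → V →+ V}
    (hf : ∀ j, j < k → Function.Injective (f j))
    (hA : ∀ j, j < k → ∀ u w, f j u - f j w = A j (u - w)) (j : ℕ) (hj : j < k) :
    Function.Injective (A j) := by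
  intro u v huv
  have h1 := hA j hj u v
  rw [map_sub, huv, sub_self, sub_eq_zero] at h1
  exact hf j hj h1

theorem affA {k : ℕ} {f : ℕ → V → V} {A : ℕ → V →+ V} {b₀ : V}
    (hA : ∀ j, j < k → ∀ u w, f j u - f j w = A j (u - w)) (j : ℕ) (hj : j < k)
    (u : V) : f j u + b₀ = A j u + (f j 0 + b₀) := by
  have h1 := hA j hj u 0
  rw [sub_zero] at h1
  rw [← h1]
  abel

theorem iterSets_mono' {α : Type*} {D : Set α} {f : ℕ → α → α} {l m : ℕ} (hlm : l ≤ m) :
    iterSets D f l ⊆ iterSets D f m := by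
  induction m, hlm using Nat.le_induction with
  | base => exact le_rfl
  | succ m _ ih => exact fun u hu => ⟨0, u, ih hu, rfl⟩

theorem iterSets_point {α : Type*} {D : Set α} {f : ℕ → α → α} {l : ℕ} {z : α}
    (hz : z ∈ iterSets D f l) : ∃ u ∈ D, z ∈ iterSets {u} f l := by
  induction l generalizing z with
  | zero => exact ⟨z, hz, rfl⟩
  | succ l ih =>
    obtain ⟨i, v, hv, rfl⟩ := hz
    obtain ⟨u, hu, h1⟩ := ih hv
    exact ⟨u, hu, i, v, h1, rfl⟩

theorem iterSets_subset {α : Type*} {D D' : Set α} {f : ℕ → α → α} (h : D ⊆ D') {l : ℕ} :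
    iterSets D f l ⊆ iterSets D' f l := by
  induction l with
  | zero => exact h
  | succ l ih =>
    rintro _ ⟨i, v, hv, rfl⟩
    exact ⟨i, v, ih hv, rfl⟩

/-- the linear parts -/
theorem poly_lin {k E : ℕ} {A : ℕ → V →+ V} (hinj : ∀ j < k, Function.Injective (A j))
    (hn : ∀ l, l < k → ∀ j, j < l → ∃ e : ℕ → ℕ, (∀ i, i < l → e i ≤ E) ∧
      ∀ u, A j (A l u) = A l (word (fun i => A i) e l u)) :
    Poly (⊥ : AddSubgroup V) (fun j => A j) A k := by
  refine ⟨fun j _ u => ?_, hinj, fun j _ w hw => ?_, fun l hl j hj u => ?_⟩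
  · rw [map_zero, add_zero]
  · rw [AddSubgroup.mem_bot] at hw ⊢
    rw [hw, map_zero]
  · obtain ⟨e, _, he⟩ := hn l hl j hj
    exact ⟨e, 0, AddSubgroup.zero_mem _, by rw [add_zero]; exact he u⟩

theorem iterSets_stableP [Finite V] {k E : ℕ} {A : ℕ → V →+ V}
    (hinj : ∀ j < k, Function.Injective (A j))
    (hn : ∀ l, l < k → ∀ j, j < l → ∃ e : ℕ → ℕ, (∀ i, i < l → e i ≤ E) ∧
      ∀ u, A j (A l u) = A l (word (fun i => A i) e l u)) {D : Set V} {j : ℕ} (hj : j < k) {z : V}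
    (hz : z ∈ iterSets D (fun j => A j) k) : A j z ∈ iterSets D (fun j => A j) k := by
  obtain ⟨u, hu, h1⟩ := iterSets_point hz
  have h2 := (poly_lin hinj hn).closed le_rfl u j hj z (by
    refine iterSets_subset ?_ h1
    intro v hv
    have hv' : v = u := hv
    change v - u ∈ (⊥ : AddSubgroup V)
    rw [hv', sub_self]
    exact AddSubgroup.zero_mem _)
  refine iterSets_subset ?_ h2
  intro v hv
  have h3 : v - u ∈ (⊥ : AddSubgroup V) := hv
  rw [AddSubgroup.mem_bot, sub_eq_zero] at h3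
  rw [h3]
  exact hu

/-- The hypotheses of the core hold for `W`. -/
theorem poly_WP [Finite V] {k E : ℕ} {f : ℕ → V → V} {A : ℕ → V →+ V} {R : Set V}
    {b₀ : V} (hf : ∀ j, j < k → Function.Injective (f j))
    (hA : ∀ j, j < k → ∀ u w, f j u - f j w = A j (u - w))
    (hn : ∀ l, l < k → ∀ j, j < l → ∃ e : ℕ → ℕ, (∀ i, i < l → e i ≤ E) ∧
      ∀ u, A j (A l u) = A l (word (fun i => A i) e l u)) :
    Poly (WP k E f A R b₀) (fun j u => f j u + b₀) A k := by
  refine ⟨fun j hj u => affA hA j hj u, injA hf hA, ?_, ?_⟩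
  · intro j hj w hw
    unfold WP at hw ⊢
    induction hw using AddSubgroup.closure_induction with
    | mem y hy =>
      exact AddSubgroup.subset_closure (iterSets_stableP (injA hf hA) hn hj hy)
    | zero =>
      rw [map_zero]
      exact AddSubgroup.zero_mem _
    | add x y _ _ hx hy =>
      rw [map_add]
      exact AddSubgroup.add_mem _ hx hy
    | neg x _ hx =>
      rw [map_neg]
      exact AddSubgroup.neg_mem _ hx
  · intro l hl j hj u
    obtain ⟨e, he1, he2⟩ := hn l hl j hj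
    have h1 := word_const (g := fun j u => f j u + b₀) (fun j hj u => affA hA j hj u) hl hj
      he2 u
    exact ⟨e, _, AddSubgroup.subset_closure (iterSets_mono' (Nat.zero_le k)
      (Or.inr ⟨l, hl, j, hj, e, he1, he2, rfl⟩)), h1⟩

theorem WP_le {k E : ℕ} {f : ℕ → V → V} {A : ℕ → V →+ V} {R : Set V} {b₀ : V}
    {T : AddSubgroup V} (hT : ∀ j < k, ∀ w ∈ T, A j w ∈ T)
    (h1 : ∀ b ∈ R, ∀ b' ∈ R, b - b' ∈ T)
    (h2 : ∀ l < k, ∀ j < l, ∀ e : ℕ → ℕ, ((∀ i, i < l → e i ≤ E) ∧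
        ∀ u, A j (A l u) = A l (word (fun i => A i) e l u)) →
      (f j (f l 0 + b₀) + b₀) - (f l (word (fun i u => f i u + b₀) e l 0) + b₀) ∈ T) :
    WP k E f A R b₀ ≤ T := by
  unfold WP
  rw [AddSubgroup.closure_le]
  have key : ∀ l, l ≤ k → iterSets (gensP k E f A R b₀) (fun j => A j) l ⊆ T := by
    intro l
    induction l with
    | zero =>
      rintro _ z (⟨b, hb, b', hb', rfl⟩ | ⟨l, hl, j, hj, e, he1, he2, rfl⟩)
      · exact h1 b hb b' hb'
      · exact h2 l hl j hj e ⟨he1, he2⟩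
    | succ l ih =>
      intro hl z hz
      obtain ⟨i, v, hv, rfl⟩ := hz
      have hv' := ih (by omega) hv
      clear hv
      induction i with
      | zero => exact hv'
      | succ i ih2 =>
        rw [Function.iterate_succ_apply']
        exact hT l (by omega) _ ih2
  exact key k le_rfl

theorem reach_iffP [Finite V] {k E : ℕ} (hk : 1 ≤ k) {f : ℕ → V → V} {A : ℕ → V →+ V} {R : Set V}
    {b₀ : V} (hf : ∀ j, j < k → Function.Injective (f j))
    (hA : ∀ j, j < k → ∀ u w, f j u - f j w = A j (u - w))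
    (hn : ∀ l, l < k → ∀ j, j < l → ∃ e : ℕ → ℕ, (∀ i, i < l → e i ≤ E) ∧
      ∀ u, A j (A l u) = A l (word (fun i => A i) e l u)) (hb : b₀ ∈ R) (x y : V) :
    Relation.ReflTransGen (fun u w => ∃ j, j < k ∧ ∃ b ∈ R, w = f j u + b) x y ↔
      y ∈ OP k E f A R b₀ x k := by
  constructor
  · intro h
    refine (poly_WP (R := R) (b₀ := b₀) hf hA hn).reach_sub (fun _ _ _ => rfl) ?_ h
    intro b hbR
    exact AddSubgroup.subset_closure (iterSets_mono' (Nat.zero_le k)
      (Or.inl ⟨b, hbR, b₀, hb, rfl⟩))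
  · intro h
    exact sub_reach (g := fun j u => f j u + b₀)
      (E := fun l j e => (∀ i, i < l → e i ≤ E) ∧
        ∀ u, A j (A l u) = A l (word (fun i => A i) e l u)) hk hb (fun _ _ _ => rfl)
      (fun j hj u => affA hA j hj u) (injA hf hA) (fun _ _ _ _ _ he => he.2)
      (fun T h1 h2 h3 => WP_le h1 h2 h3) h

theorem card_OP_succ [Finite V] {k E : ℕ} {f : ℕ → V → V} {A : ℕ → V →+ V} {R : Set V}
    {b₀ : V} (hf : ∀ j, j < k → Function.Injective (f j))
    (hA : ∀ j, j < k → ∀ u w, f j u - f j w = A j (u - w))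
    (hn : ∀ l, l < k → ∀ j, j < l → ∃ e : ℕ → ℕ, (∀ i, i < l → e i ≤ E) ∧
      ∀ u, A j (A l u) = A l (word (fun i => A i) e l u)) (x : V) {l p : ℕ}
    (hl : l < k) (hp : 1 ≤ p) (h1 : (fun u => f l u + b₀)^[p] x ∈ OP k E f A R b₀ x l)
    (h2 : ∀ s, 1 ≤ s → s < p → (fun u => f l u + b₀)^[s] x ∉ OP k E f A R b₀ x l) :
    Nat.card (OP k E f A R b₀ x (l + 1)) = p * Nat.card (OP k E f A R b₀ x l) := by
  rw [Nat.card_coe_set_eq, Nat.card_coe_set_eq]
  exact (poly_WP (R := R) (b₀ := b₀) hf hA hn).ncard_succ hl hp h1 h2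

theorem card_OP_zero {k E : ℕ} {f : ℕ → V → V} {A : ℕ → V →+ V} {R : Set V} {b₀ : V} (x : V) :
    Nat.card (OP k E f A R b₀ x 0) = Nat.card (WP k E f A R b₀) :=
  Nat.card_congr ((Equiv.subRight x).subtypeEquiv fun _ => Iff.rfl)

/-- There is such a number. -/
theorem period_OP [Finite V] {k E : ℕ} {f : ℕ → V → V} {A : ℕ → V →+ V} {R : Set V}
    {b₀ : V} (x : V) {l : ℕ} (hf : Function.Injective (f l)) :
    ∃ p, 1 ≤ p ∧ p ≤ Nat.card V ∧ (fun u => f l u + b₀)^[p] x ∈ OP k E f A R b₀ x l := by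
  have hg : Function.Injective (fun u => f l u + b₀) := fun u v h => hf (add_right_cancel h)
  obtain ⟨g, hgd⟩ : ∃ g : V → V, g = fun u => f l u + b₀ := ⟨_, rfl⟩
  rw [← hgd] at hg ⊢
  have hx : x ∈ OP k E f A R b₀ x l := OO_self x l
  obtain ⟨i, j, hij, he⟩ : ∃ i j : Fin (Nat.card V + 1), i ≠ j ∧ g^[i] x = g^[j] x := by
    by_contra hcon
    push Not at hcon
    have hinj : Function.Injective (fun i : Fin (Nat.card V + 1) => g^[(i : ℕ)] x) := by
      intro i j h
      by_contra hne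
      exact hcon i j hne h
    have := Nat.card_le_card_of_injective _ hinj
    rw [Nat.card_fin] at this
    omega
  have key : ∀ i j : ℕ, i < j → j ≤ Nat.card V → g^[i] x = g^[j] x →
      ∃ p, 1 ≤ p ∧ p ≤ Nat.card V ∧ g^[p] x ∈ OP k E f A R b₀ x l := by
    intro i j hij hj he
    refine ⟨j - i, by omega, by omega, ?_⟩
    have h1 : g^[j] x = g^[i] (g^[j - i] x) := by
      rw [← Function.iterate_add_apply]
      congr 2
      omega
    rw [← (hg.iterate i) (he.trans h1)]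
    exact hx
  have hi := i.2
  have hj := j.2
  have hne : (i : ℕ) ≠ (j : ℕ) := fun h => hij (Fin.ext h)
  rcases Nat.lt_or_gt_of_ne hne with h | h
  · exact key i j h (by omega) he
  · exact key j i h (by omega) he.symm

end Pool.Agent.LinP
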