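import Pool.Agent.LinP.P0

/-!
# Package LinP-P2: normal forms in polycyclic groups of matrices (pure algebra)

The powers of `A` are determined by the remainders of `X ^ i` modulo the characteristic polynomial,
so two of the first `card R ^ N + 1` agree. With `C_l` the monoid generated by the `A i`, `i < l`,
`M A_l ^ i = A_l ^ i M'` with `M' ∈ C_l` for `M ∈ C_l`, so every element of `C_(l+1)` is
`A_l ^ i M'`, `M' ∈ C_l`, hence a word; the exponents are reduced modulo the orders.
-/

set_option autoImplicit false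

namespace Pool.Agent.LinP

open Polynomial

/-- among the powers `A ^ i`, `i ≤ card R ^ N`, two are equal -/
private theorem P2_pow_eq {R : Type*} [CommRing R] [Nontrivial R] [Finite R] {N : ℕ}
    (A : Matrix (Fin N) (Fin N) R) : ∃ i j, i < j ∧ j ≤ Nat.card R ^ N ∧ A ^ i = A ^ j := by
  classical
  have := Fintype.ofFinite R
  set f : Fin (Nat.card R ^ N + 1) → (Fin N → R) :=
    fun i l => (X ^ (i : ℕ) %ₘ A.charpoly).coeff l with hf
  obtain ⟨i, j, hne, hij⟩ : ∃ i j, i ≠ j ∧ f i = f j := by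
    apply Fintype.exists_ne_map_eq_of_card_lt
    rw [Fintype.card_fun, Fintype.card_fin, Nat.card_eq_fintype_card, Fintype.card_fin]
    omega
  have hpow : ∀ i : ℕ, A ^ i = aeval A (X ^ i %ₘ A.charpoly) := by
    intro i
    have h1 := modByMonic_add_div (X ^ i : R[X]) A.charpoly
    have h2 : aeval A (X ^ i : R[X]) = A ^ i := by simp
    rw [← h2]
    conv_lhs => rw [← h1]
    rw [map_add, map_mul, Matrix.aeval_self_charpoly, zero_mul, add_zero]
  have hdeg : ∀ i : ℕ, (X ^ i %ₘ A.charpoly).degree < (N : WithBot ℕ) := by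
    intro i
    have h1 := degree_modByMonic_lt (X ^ i : R[X]) A.charpoly_monic
    rw [Matrix.charpoly_degree_eq_dim, Fintype.card_fin] at h1
    exact h1
  have hpoly : (X ^ (i : ℕ) %ₘ A.charpoly : R[X]) = X ^ (j : ℕ) %ₘ A.charpoly := by
    ext l
    by_cases hl : l < N
    · exact congrFun hij ⟨l, hl⟩
    · rw [coeff_eq_zero_of_degree_lt, coeff_eq_zero_of_degree_lt]
      · exact lt_of_lt_of_le (hdeg _) (by exact_mod_cast not_lt.1 hl)
      · exact lt_of_lt_of_le (hdeg _) (by exact_mod_cast not_lt.1 hl)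
  have hA : A ^ (i : ℕ) = A ^ (j : ℕ) := by rw [hpow, hpow, hpoly]
  rcases lt_or_gt_of_ne (Fin.val_ne_of_ne hne) with h | h
  · exact ⟨i, j, h, by have := j.2; omega, hA⟩
  · exact ⟨j, i, h, by have := i.2; omega, hA.symm⟩

/-- the order of an invertible matrix over a finite commutative ring is at most `card R ^ N` -/
theorem exists_pow_eq_one {R : Type*} [CommRing R] [Finite R] {N : ℕ}
    {A : Matrix (Fin N) (Fin N) R} (hA : Function.Injective A.mulVec) :
    ∃ e, 0 < e ∧ e ≤ Nat.card R ^ N ∧ A ^ e = 1 := by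
  rcases subsingleton_or_nontrivial R with hR | hR
  · exact ⟨1, one_pos, Nat.one_le_pow _ _ (Nat.card_pos), Subsingleton.elim _ _⟩
  obtain ⟨i, j, hij, hj, h⟩ := P2_pow_eq A
  refine ⟨j - i, by omega, by omega, ?_⟩
  have hinj : ∀ i : ℕ, Function.Injective (A ^ i).mulVec := by
    intro i
    induction i with
    | zero =>
      intro u v huv
      simpa using huv
    | succ i ih =>
      intro u v huv
      rw [pow_succ, ← Matrix.mulVec_mulVec, ← Matrix.mulVec_mulVec] at huv
      exact hA (ih huv)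
  apply Matrix.ext_of_mulVec_single
  intro l
  apply hinj i
  rw [Matrix.mulVec_mulVec, ← pow_add, Nat.add_sub_cancel' hij.le, Matrix.one_mulVec, h]

/-- the matrix of a word -/
private def wmat {R : Type*} [CommRing R] {N : ℕ} (A : ℕ → Matrix (Fin N) (Fin N) R)
    (e : ℕ → ℕ) : ℕ → Matrix (Fin N) (Fin N) R
  | 0 => 1
  | l + 1 => A l ^ e l * wmat A e l

private theorem wmat_congr {R : Type*} [CommRing R] {N : ℕ} (A : ℕ → Matrix (Fin N) (Fin N) R)
    {e e' : ℕ → ℕ} {l : ℕ} (h : ∀ i, i < l → e i = e' i) : wmat A e l = wmat A e' l := by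
  induction l with
  | zero => rfl
  | succ l ih => rw [wmat, wmat, h l (Nat.lt_succ_self l), ih fun i hi => h i (by omega)]

private theorem word_eq {R : Type*} [CommRing R] {N : ℕ} (A : ℕ → Matrix (Fin N) (Fin N) R)
    (e : ℕ → ℕ) (l : ℕ) (u : Fin N → R) :
    word (fun i u => (A i).mulVec u) e l u = (wmat A e l).mulVec u := by
  have h : ∀ (B : Matrix (Fin N) (Fin N) R) (i : ℕ) (u : Fin N → R),
      (fun u => B.mulVec u)^[i] u = (B ^ i).mulVec u := by
    intro B i u
    induction i with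
    | zero => rw [pow_zero, Matrix.one_mulVec]; rfl
    | succ i ih => rw [Function.iterate_succ_apply', ih, pow_succ', ← Matrix.mulVec_mulVec]
  induction l with
  | zero => exact (Matrix.one_mulVec u).symm
  | succ l ih => rw [word, ih, wmat, ← Matrix.mulVec_mulVec, h]

theorem exists_word {R : Type*} [CommRing R] [Finite R] {N k : ℕ}
    {A : ℕ → Matrix (Fin N) (Fin N) R} (hA : ∀ j, j < k → Function.Injective (A j).mulVec)
    (hn : ∀ l, l < k → ∀ j, j < l → ∃ M ∈ Submonoid.closure {X | ∃ i, i < l ∧ X = A i},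
      A j * A l = A l * M) :
    ∀ l, l < k → ∀ j, j < l → ∃ e : ℕ → ℕ, (∀ i, i < l → e i ≤ Nat.card R ^ N) ∧
      ∀ u, (A j).mulVec ((A l).mulVec u) =
        (A l).mulVec (word (fun i u => (A i).mulVec u) e l u) := by
  set C : ℕ → Submonoid (Matrix (Fin N) (Fin N) R) :=
    fun l => Submonoid.closure {X | ∃ i, i < l ∧ X = A i} with hC
  have h1 : ∀ l, l < k → ∀ M₀ ∈ C l, ∃ M ∈ C l, M₀ * A l = A l * M := by
    intro l hl M₀ hM₀
    induction hM₀ using Submonoid.closure_induction with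
    | mem X hX =>
      obtain ⟨j, hj, rfl⟩ := hX
      exact hn l hl j hj
    | one => exact ⟨1, (C l).one_mem, by rw [one_mul, mul_one]⟩
    | mul X Y _ _ ihX ihY =>
      obtain ⟨X', hX', eX⟩ := ihX
      obtain ⟨Y', hY', eY⟩ := ihY
      exact ⟨X' * Y', (C l).mul_mem hX' hY', by
        rw [mul_assoc, eY, ← mul_assoc, eX, mul_assoc]⟩
  have h2 : ∀ l, l < k → ∀ i : ℕ, ∀ M₀ ∈ C l, ∃ M ∈ C l, M₀ * A l ^ i = A l ^ i * M := by
    intro l hl i
    induction i with
    | zero => exact fun M₀ h => ⟨M₀, h, by rw [pow_zero, mul_one, one_mul]⟩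
    | succ i ih =>
      intro M₀ h
      obtain ⟨M, hM, e⟩ := ih M₀ h
      obtain ⟨M', hM', e'⟩ := h1 l hl M hM
      exact ⟨M', hM', by rw [pow_succ, ← mul_assoc, e, mul_assoc, e', ← mul_assoc]⟩
  have h3 : ∀ l, l < k → ∀ M ∈ C (l + 1), ∃ i : ℕ, ∃ M' ∈ C l, M = A l ^ i * M' := by
    intro l hl M hM
    induction hM using Submonoid.closure_induction with
    | mem X hX =>
      obtain ⟨j, hj, rfl⟩ := hX
      rcases Nat.lt_succ_iff_lt_or_eq.1 hj with h | rfl
      · exact ⟨0, A j, Submonoid.subset_closure ⟨j, h, rfl⟩, by rw [pow_zero, one_mul]⟩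
      · exact ⟨1, 1, (C j).one_mem, by rw [pow_one, mul_one]⟩
    | one => exact ⟨0, 1, (C l).one_mem, by rw [pow_zero, one_mul]⟩
    | mul X Y _ _ ihX ihY =>
      obtain ⟨i, X', hX', rfl⟩ := ihX
      obtain ⟨j, Y', hY', rfl⟩ := ihY
      obtain ⟨Z, hZ, e⟩ := h2 l hl j X' hX'
      exact ⟨i + j, Z * Y', (C l).mul_mem hZ hY', by
        rw [mul_assoc, ← mul_assoc X', e, mul_assoc, ← mul_assoc, pow_add]⟩
  have h4 : ∀ l, l ≤ k → ∀ M ∈ C l, ∃ e : ℕ → ℕ, (∀ i, i < l → e i ≤ Nat.card R ^ N) ∧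
      M = wmat A e l := by
    intro l
    induction l with
    | zero =>
      intro _ M hM
      refine ⟨fun _ => 0, fun i hi => absurd hi (Nat.not_lt_zero i), ?_⟩
      have h5 : C 0 = ⊥ := by
        rw [hC]
        simp only
        rw [eq_bot_iff, Submonoid.closure_le]
        rintro X ⟨i, hi, _⟩
        exact absurd hi (Nat.not_lt_zero i)
      rw [h5, Submonoid.mem_bot] at hM
      exact hM
    | succ l ih =>
      intro hl M hM
      obtain ⟨i, M', hM', rfl⟩ := h3 l hl M hM
      obtain ⟨e, he, rfl⟩ := ih (by omega) M' hM'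
      obtain ⟨d, hd, hdle, hpow⟩ := exists_pow_eq_one (hA l hl)
      refine ⟨fun j => if j = l then i % d else e j, fun j hj => ?_, ?_⟩
      · simp only
        split_ifs with h
        · exact (Nat.mod_lt _ hd).le.trans hdle
        · exact he j (by omega)
      · have h6 : A l ^ i = A l ^ (i % d) := by
          conv_lhs => rw [← Nat.div_add_mod i d, pow_add, pow_mul, hpow, one_pow, one_mul]
        rw [wmat, if_pos rfl, h6]
        congr 1
        refine wmat_congr A fun j hj => ?_
        rw [if_neg (by omega)]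
  intro l hl j hj
  obtain ⟨M, hM, e1⟩ := hn l hl j hj
  obtain ⟨e, he, rfl⟩ := h4 l hl.le M hM
  refine ⟨e, he, fun u => ?_⟩
  rw [word_eq, Matrix.mulVec_mulVec, Matrix.mulVec_mulVec, e1]

end Pool.Agent.LinP
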