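import Pool.Agent.LinK.K3
import Pool.Agent.LinP.P1

/-!
# Package LinP-P3: reachability and the number of reachable points, polycyclic linear parts
-/

set_option autoImplicit false

namespace Pool.Agent.LinP

open Finset Pool.Agent.Grz Pool.Agent.GAvg Pool.Agent.PTr Pool.Agent.MTr
open Pool.Agent.LPC Pool.Agent.ECD Pool.Agent.LinU
open Pool.Agent.LinK (iterSets vset cset mem_vset vset_cset cset_lt closure_delta Itr cset_delta
  itr_dfun least_dfun GG HH ff AA)

theorem word_congr {α : Type*} (f : ℕ → α → α) {e e' : ℕ → ℕ} {l : ℕ}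
    (h : ∀ i, i < l → e i = e' i) (u : α) : word f e l u = word f e' l u := by
  induction l with
  | zero => rfl
  | succ l ih =>
    rw [word, word, ih fun i hi => h i (by omega), h l (by omega)]

/-- the exponents of a vector -/
def ext {l : ℕ} (e : Fin l → ℕ) (i : ℕ) : ℕ := if h : i < l then e ⟨i, h⟩ else 0

theorem word_lt {L k : ℕ} {F : ℕ → ℕ → ℕ} (hFb : ∀ j, j < k → ∀ z, z < L → F j z < L)
    (e : ℕ → ℕ) {u : ℕ} (hu : u < L) : ∀ l, l ≤ k → word F e l u < L := by
  intro l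
  induction l with
  | zero => exact fun _ => hu
  | succ l ih => exact fun hl => iter_bd (ih (by omega)) (hFb l (by omega)) _

theorem word_vec {m N k : ℕ} {F : ℕ → ℕ → ℕ} {f : ℕ → (Fin N → ZMod m) → (Fin N → ZMod m)}
    (hFb : ∀ j, j < k → ∀ z, z < m ^ N → F j z < m ^ N)
    (hF : ∀ j, j < k → ∀ z, z < m ^ N → vecOf m N (F j z) = f j (vecOf m N z))
    (e : ℕ → ℕ) {u : ℕ} (hu : u < m ^ N) : ∀ l, l ≤ k →
    vecOf m N (word F e l u) = word f e l (vecOf m N u) := by
  intro l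
  induction l with
  | zero => exact fun _ => rfl
  | succ l ih =>
    intro hl
    rw [word, word, ← ih (by omega)]
    exact iter_vecOf (word_lt hFb e hu l (by omega)) (hFb l (by omega)) (hF l (by omega)) _

/-- the words of code maps are definable -/
theorem word_dfun {n k : ℕ} {L : (Fin n → ℕ) → ℕ} {F : ℕ → ℕ → (Fin n → ℕ) → ℕ}
    (hFb : ∀ j, j < k → ∀ v z, z < L v → F j z v < L v)
    (hF : ∀ j, j < k → DFun (n + 1 + 1) (fun w => Itr (L fun i => w i.succ.succ)
      (fun z => F j z fun i => w i.succ.succ) (w 0) (w (Fin.succ 0)))) {n' : ℕ}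
    {u : (Fin n' → ℕ) → ℕ} {e : (Fin n' → ℕ) → ℕ → ℕ} {g : Fin n → (Fin n' → ℕ) → ℕ}
    (hu : DFun n' u) (he : ∀ i, DFun n' (fun w => e w i)) (hg : ∀ i, DFun n' (g i))
    (hub : ∀ w, u w < L (fun i => g i w)) :
    ∀ l, l ≤ k → DFun n' (fun w => word (fun j z => F j z fun i => g i w) (e w) l (u w)) := by
  intro l
  induction l with
  | zero => exact fun _ => hu
  | succ l ih =>
    intro hl
    have h1 := ih (by omega)
    have h2 := (hF l (by omega)).comp (n := n') (h := Fin.cons (fun w => e w l) (Fin.cons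
      (fun w => word (fun j z => F j z fun i => g i w) (e w) l (u w)) g)) (fun i => by
        refine Fin.cases ?_ (fun i => ?_) i
        · exact he l
        refine Fin.cases ?_ (fun i => ?_) i
        · exact h1
        · exact hg i)
    refine cast (congrArg (DFun n') ?_) h2
    funext w
    have hlt : word (fun j z => F j z fun i => g i w) (e w) l (u w) < L (fun i => g i w) :=
      word_lt (fun j hj z hz => hFb j hj _ z hz) (e w) (hub w) l (by omega)
    show Itr (L fun i => g i w) (fun z => F l z fun i => g i w) (e w l)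
      (word (fun j z => F j z fun i => g i w) (e w) l (u w)) = _
    rw [Itr, if_pos hlt]
    rfl

/-- the data -/
structure Cp (P : ∀ m N : ℕ, ℕ → Matrix (Fin N) (Fin N) (ZMod m) → Prop) {n : ℕ} (k : ℕ)
    (m N B : (Fin n → ℕ) → ℕ) (T : ℕ → ℕ → (Fin n → ℕ) → ℕ) (R : (Fin (n + 1) → ℕ) → Prop)
    (A : ∀ v, ℕ → Matrix (Fin (N v)) (Fin (N v)) (ZMod (m v)))
    (c : ∀ v, ℕ → Fin (N v) → ZMod (m v)) (b₀ x : (Fin n → ℕ) → ℕ) : Prop where
  hI : GoodIter P
  hm : DFun n m
  hN : DFun n N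
  hB : DFun n B
  hb : DFun n b₀
  hx : DFun n x
  hT : ∀ j, j < k → DFun (n + 1) (fun w => T j (w 0) (fun i => w i.succ))
  hR : Delta0 (n + 1) R
  h2 : ∀ v, 2 ≤ m v
  hmN : ∀ v, m v ^ N v ≤ B v
  hTb : ∀ j, j < k → ∀ v z, z < m v ^ N v → T j z v < m v ^ N v
  hn : ∀ v l, l < k → ∀ j, j < l → ∃ e : ℕ → ℕ, (∀ i, i < l → e i ≤ m v ^ N v) ∧
    ∀ u, AA A v j (AA A v l u) = AA A v l (word (fun i => AA A v i) e l u)
  hP : ∀ v j, j < k → P (m v) (N v) (B v) (A v j)
  hA : ∀ v j, j < k → ∀ z, z < m v ^ N v →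
    vecOf (m v) (N v) (T j z v) = (A v j).mulVec (vecOf (m v) (N v) z) + c v j
  hinj : ∀ j, j < k → ∀ v z z', z < m v ^ N v → z' < m v ^ N v → T j z v = T j z' v → z = z'
  hxb : ∀ v, x v < m v ^ N v

section

variable {P : ∀ m N : ℕ, ℕ → Matrix (Fin N) (Fin N) (ZMod m) → Prop} {n k : ℕ}
  {m N B : (Fin n → ℕ) → ℕ} {T : ℕ → ℕ → (Fin n → ℕ) → ℕ} {R : (Fin (n + 1) → ℕ) → Prop}
  {A : ∀ v, ℕ → Matrix (Fin (N v)) (Fin (N v)) (ZMod (m v))}
  {c : ∀ v, ℕ → Fin (N v) → ZMod (m v)} {b₀ x : (Fin n → ℕ) → ℕ}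

/-- the codes of the relators -/
def RL (m N : (Fin n → ℕ) → ℕ) (T : ℕ → ℕ → (Fin n → ℕ) → ℕ) (b₀ : (Fin n → ℕ) → ℕ) (l j : ℕ)
    (e : Fin l → ℕ) (z : ℕ) (v : Fin n → ℕ) : Prop :=
  (∀ u, u ≤ m v ^ N v → u < m v ^ N v → HH m N T j (HH m N T l u v) v =
    HH m N T l (word (fun j z => HH m N T j z v) (ext e) l u) v) ∧
  z = subc (m v) (N v) (GG m N T b₀ j (GG m N T b₀ l 0 v) v)
    (GG m N T b₀ l (word (fun j z => GG m N T b₀ j z v) (ext e) l 0) v)

/-- the codes of the generators -/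
def SG (k : ℕ) (m N : (Fin n → ℕ) → ℕ) (T : ℕ → ℕ → (Fin n → ℕ) → ℕ)
    (R : (Fin (n + 1) → ℕ) → Prop) (b₀ : (Fin n → ℕ) → ℕ) (z : ℕ) (v : Fin n → ℕ) : Prop :=
  (∃ b, b ≤ m v ^ N v ∧ ∃ b', b' ≤ m v ^ N v ∧ b < m v ^ N v ∧ b' < m v ^ N v ∧
    R (Fin.cons b v) ∧ R (Fin.cons b' v) ∧ z = subc (m v) (N v) b b') ∨
  ∃ l : Fin k, ∃ j : Fin l, ∃ e : Fin l → ℕ, (∀ i, e i ≤ m v ^ N v) ∧ RL m N T b₀ l j e z v

namespace Cp

theorem pos (h : Cp P k m N B T R A c b₀ x) (v : Fin n → ℕ) : 0 < m v :=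
  lt_of_lt_of_le (by norm_num) (h.h2 v)

theorem hL (h : Cp P k m N B T R A c b₀ x) : DFun n (fun v => m v ^ N v) :=
  dfun_powLe h.hm h.hN h.hB h.hmN

theorem GG_lt (h : Cp P k m N B T R A c b₀ x) (j z : ℕ) (v : Fin n → ℕ) :
    GG m N T b₀ j z v < m v ^ N v := addc_lt (h.pos v) _ _ _

theorem HH_lt (h : Cp P k m N B T R A c b₀ x) (j z : ℕ) (v : Fin n → ℕ) :
    HH m N T j z v < m v ^ N v := subc_lt (h.pos v) _ _ _

theorem GG_vec (h : Cp P k m N B T R A c b₀ x) {j : ℕ} (hj : j < k) (v : Fin n → ℕ) (z : ℕ)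
    (hz : z < m v ^ N v) : vecOf (m v) (N v) (GG m N T b₀ j z v) =
      ff A c v j (vecOf (m v) (N v) z) + vecOf (m v) (N v) (b₀ v) := by
  rw [GG, vecOf_addc (h.pos v), h.hA v j hj z hz, ff]

theorem HH_vec (h : Cp P k m N B T R A c b₀ x) {j : ℕ} (hj : j < k) (v : Fin n → ℕ) (z : ℕ)
    (hz : z < m v ^ N v) : vecOf (m v) (N v) (HH m N T j z v) =
      AA A v j (vecOf (m v) (N v) z) := by
  rw [HH, vecOf_subc (h.pos v), h.hA v j hj z hz, h.hA v j hj 0 (pow_pos (h.pos v) _), vecOf_zero,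
    Matrix.mulVec_zero, zero_add, add_sub_cancel_right]
  rfl

theorem GG_dfun (h : Cp P k m N B T R A c b₀ x) {j : ℕ} (hj : j < k) :
    DFun (n + 1) (fun w => GG m N T b₀ j (w 0) (fun i => w i.succ)) :=
  addc_def h.hm.weak h.hN.weak h.hB.weak (h.hT j hj) h.hb.weak (fun _ => h.h2 _) fun _ => h.hmN _

theorem HH_dfun (h : Cp P k m N B T R A c b₀ x) {j : ℕ} (hj : j < k) :
    DFun (n + 1) (fun w => HH m N T j (w 0) (fun i => w i.succ)) := by
  have hTz : DFun n (fun v => T j 0 v) := DFun.app (h.hT j hj) (DFun.const 0) fun i => DFun.proj i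
  exact subc_def h.hm.weak h.hN.weak h.hB.weak (h.hT j hj) hTz.weak (fun _ => h.h2 _)
    fun _ => h.hmN _

theorem GG_itr (h : Cp P k m N B T R A c b₀ x) {j : ℕ} (hj : j < k) :
    DFun (n + 1 + 1) (fun w => Itr (m (fun i => w i.succ.succ) ^ N (fun i => w i.succ.succ))
      (fun z => GG m N T b₀ j z fun i => w i.succ.succ) (w 0) (w (Fin.succ 0))) :=
  itr_dfun h.hI h.hm h.hN h.hB h.pos h.hmN (h.GG_dfun hj) (fun v z _ => h.GG_lt j z v)
    fun v => ⟨A v j, c v j + vecOf (m v) (N v) (b₀ v), h.hP v j hj, fun z hz => by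
      rw [h.GG_vec hj v z hz, ff, add_assoc]⟩

theorem HH_itr (h : Cp P k m N B T R A c b₀ x) {j : ℕ} (hj : j < k) :
    DFun (n + 1 + 1) (fun w => Itr (m (fun i => w i.succ.succ) ^ N (fun i => w i.succ.succ))
      (fun z => HH m N T j z fun i => w i.succ.succ) (w 0) (w (Fin.succ 0))) :=
  itr_dfun h.hI h.hm h.hN h.hB h.pos h.hmN (h.HH_dfun hj) (fun v z _ => h.HH_lt j z v)
    fun v => ⟨A v j, 0, h.hP v j hj, fun z hz => by
      rw [h.HH_vec hj v z hz, add_zero]
      rfl⟩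

/-- the relators are definable -/
theorem RL_delta (h : Cp P k m N B T R A c b₀ x) {l j : ℕ} (hl : l < k) (hj : j < l) {n' : ℕ}
    {e : Fin l → (Fin n' → ℕ) → ℕ} {z : (Fin n' → ℕ) → ℕ} {g : Fin n → (Fin n' → ℕ) → ℕ}
    (he : ∀ i, DFun n' (e i)) (hz : DFun n' z) (hg : ∀ i, DFun n' (g i)) :
    Delta0 n' (fun w => RL m N T b₀ l j (fun i => e i w) (z w) (fun i => g i w)) := by
  have hjk : j < k := hj.trans hl
  have hext : ∀ (i : ℕ), DFun n' (fun w => ext (fun i => e i w) i) := by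
    intro i
    unfold ext
    by_cases hi : i < l
    · simp only [dif_pos hi]
      exact he _
    · simp only [dif_neg hi]
      exact DFun.const 0
  have hmg : DFun n' (fun w => m fun i => g i w) := h.hm.comp hg
  have hNg : DFun n' (fun w => N fun i => g i w) := h.hN.comp hg
  have hBg : DFun n' (fun w => B fun i => g i w) := h.hB.comp hg
  have hLg : DFun n' (fun w => m (fun i => g i w) ^ N (fun i => g i w)) := h.hL.comp hg
  have hG : ∀ {j : ℕ}, j < k → ∀ {u : (Fin n' → ℕ) → ℕ}, DFun n' u →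
      DFun n' (fun w => GG m N T b₀ j (u w) fun i => g i w) := fun hj _ hu =>
    DFun.app (h.GG_dfun hj) hu hg
  have hH : ∀ {j : ℕ}, j < k → ∀ {u : (Fin (n' + 1) → ℕ) → ℕ}, DFun (n' + 1) u →
      DFun (n' + 1) (fun w => HH m N T j (u w) fun i => g i fun i => w i.succ) := fun hj _ hu =>
    DFun.app (h.HH_dfun hj) hu fun i => (hg i).weak
  have hw1 := word_dfun (k := k) (L := fun v => m v ^ N v) (F := GG m N T b₀)
    (fun j _ v z _ => h.GG_lt j z v) (fun j hj => h.GG_itr hj) (u := fun _ => 0)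
    (e := fun w => ext fun i => e i w) (g := g) (DFun.const 0) hext hg
    (fun w => pow_pos (h.pos _) _) l hl.le
  have hs := subc_def hmg hNg hBg (hG hjk (hG hl (DFun.const 0))) (hG hl hw1)
    (fun w => h.h2 _) fun w => h.hmN _
  have hw2 := word_dfun (k := k) (L := fun v => m v ^ N v) (F := HH m N T)
    (fun j _ v z _ => h.HH_lt j z v) (fun j hj => h.HH_itr hj) (n' := n' + 1)
    (u := fun w => if w 0 < m (fun i => g i fun i => w i.succ) ^ N (fun i => g i fun i => w i.succ)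
      then w 0 else 0)
    (e := fun w => ext fun i => e i fun i => w i.succ) (g := fun i w => g i fun i => w i.succ)
    (DFun.ite (Delta0.ltFun (DFun.proj 0) hLg.weak) (DFun.proj 0) (DFun.const 0))
    (fun i => (hext i).weak) (fun i => (hg i).weak)
    (fun w => by
      split_ifs with h3
      · exact h3
      · exact pow_pos (h.pos _) _) l hl.le
  have q1 := Delta0.ballFun (n := n') hLg (P := fun u w =>
      u < m (fun i => g i w) ^ N (fun i => g i w) →
      HH m N T j (HH m N T l u fun i => g i w) (fun i => g i w) =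
      HH m N T l (word (fun j z => HH m N T j z fun i => g i w) (ext fun i => e i w) l
        (if u < m (fun i => g i w) ^ N (fun i => g i w) then u else 0)) fun i => g i w)
    ((Delta0.ltFun (DFun.proj 0) hLg.weak).imp
      (Delta0.eqFun (hH hjk (hH hl (DFun.proj 0))) (hH hl hw2)))
  refine (q1.and (Delta0.eqFun hz hs)).of_iff fun w => ?_
  unfold RL
  refine and_congr_left fun _ => forall_congr' fun u => ?_
  refine imp_congr_right fun _ => ?_
  constructor
  · intro h3 hu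
    rw [if_pos hu]
    exact h3 hu
  · intro h3 hu
    have h4 := h3 hu
    rwa [if_pos hu] at h4

theorem SG_delta (h : Cp P k m N B T R A c b₀ x) :
    Delta0 (n + 1) (fun w => SG k m N T R b₀ (w 0) (fun i => w i.succ)) := by
  -- variables `(b', b, z, v)`
  have hRb : ∀ {l : ℕ} {f : (Fin l → ℕ) → ℕ} {g : Fin n → (Fin l → ℕ) → ℕ}, DFun l f →
      (∀ i, DFun l (g i)) → Delta0 l (fun w => R (Fin.cons (f w) fun i => g i w)) := by
    intro l f g hf hg
    have h3 := h.hR.subst (n := l) (h := Fin.cons f g) (fun i => by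
      refine Fin.cases ?_ (fun j => ?_) i
      · exact hf
      · exact hg j)
    refine h3.of_iff fun w => ?_
    have e : (fun i => (Fin.cons f g : Fin (n + 1) → (Fin l → ℕ) → ℕ) i w) =
        (Fin.cons (f w) fun i => g i w : Fin (n + 1) → ℕ) := by
      funext i
      refine Fin.cases ?_ (fun j => ?_) i
      · rfl
      · rfl
    rw [e]
  have hL3 := h.hL.weak.weak.weak
  have hs := subc_def (n := n + 1 + 1 + 1) h.hm.weak.weak.weak h.hN.weak.weak.weak
    h.hB.weak.weak.weak (a := fun w => w (Fin.succ 0)) (DFun.proj _) (b := fun w => w 0)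
    (DFun.proj _) (fun _ => h.h2 _) fun _ => h.hmN _
  have q3 := (Delta0.ltFun (DFun.proj (n := n + 1 + 1 + 1) (Fin.succ 0)) hL3).and
    ((Delta0.ltFun (DFun.proj (n := n + 1 + 1 + 1) 0) hL3).and
    ((hRb (DFun.proj (n := n + 1 + 1 + 1) (Fin.succ 0))
      (g := fun i w => w i.succ.succ.succ) fun i => DFun.proj _).and
    ((hRb (DFun.proj (n := n + 1 + 1 + 1) 0)
      (g := fun i w => w i.succ.succ.succ) fun i => DFun.proj _).and
    (Delta0.eqFun (DFun.proj (n := n + 1 + 1 + 1) (Fin.succ (Fin.succ 0))) hs))))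
  have q2 := Delta0.bexFun (n := n + 1 + 1)
    (b := fun w => m (fun i => w i.succ.succ) ^ N (fun i => w i.succ.succ)) h.hL.weak.weak
    (P := fun b' w => w 0 < m (fun i => w i.succ.succ) ^ N (fun i => w i.succ.succ) ∧
      b' < m (fun i => w i.succ.succ) ^ N (fun i => w i.succ.succ) ∧
      R (Fin.cons (w 0) fun i => w i.succ.succ) ∧ R (Fin.cons b' fun i => w i.succ.succ) ∧
      w (Fin.succ 0) = subc (m fun i => w i.succ.succ) (N fun i => w i.succ.succ) (w 0) b') q3
  have q1 := Delta0.bexFun (n := n + 1)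
    (b := fun w => m (fun i => w i.succ) ^ N (fun i => w i.succ)) h.hL.weak
    (P := fun b w => ∃ b', b' ≤ m (fun i => w i.succ) ^ N (fun i => w i.succ) ∧
      (b < m (fun i => w i.succ) ^ N (fun i => w i.succ) ∧
      b' < m (fun i => w i.succ) ^ N (fun i => w i.succ) ∧
      R (Fin.cons b fun i => w i.succ) ∧ R (Fin.cons b' fun i => w i.succ) ∧
      w 0 = subc (m fun i => w i.succ) (N fun i => w i.succ) b b')) q2
  have q4 := Delta0.exOf (α := Fin k) (n := n + 1) (P := fun l w => ∃ j : Fin l,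
      ∃ e : Fin l → ℕ, (∀ i, e i ≤ m (fun i => w i.succ) ^ N (fun i => w i.succ)) ∧
        RL m N T b₀ l j e (w 0) fun i => w i.succ) fun l =>
    Delta0.exOf (α := Fin l) fun j => Delta0.bexVec (D := l) (n := n + 1)
      (b := fun w => m (fun i => w i.succ) ^ N (fun i => w i.succ)) h.hL.weak
      (P := fun e w => RL m N T b₀ l j e (w 0) fun i => w i.succ)
      (fun _ e g he hg => h.RL_delta l.isLt j.isLt (z := g 0) (g := fun i => g i.succ) he (hg 0)
        fun i => hg i.succ)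
  exact q1.or q4

/-- the linear parts agree on codes if and only if they agree on vectors -/
theorem lin_iff (h : Cp P k m N B T R A c b₀ x) (v : Fin n → ℕ) {l j : ℕ} (hl : l < k)
    (hj : j < l) (e : ℕ → ℕ) :
    (∀ u, u ≤ m v ^ N v → u < m v ^ N v → HH m N T j (HH m N T l u v) v =
      HH m N T l (word (fun j z => HH m N T j z v) e l u) v) ↔
    ∀ u, AA A v j (AA A v l u) = AA A v l (word (fun i => AA A v i) e l u) := by
  have hjk : j < k := hj.trans hl
  have hv1 : ∀ u, u < m v ^ N v → vecOf (m v) (N v) (HH m N T j (HH m N T l u v) v) =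
      AA A v j (AA A v l (vecOf (m v) (N v) u)) := fun u hu => by
    rw [h.HH_vec hjk v _ (h.HH_lt _ _ _), h.HH_vec hl v _ hu]
  have hv2 : ∀ u, u < m v ^ N v → vecOf (m v) (N v)
      (HH m N T l (word (fun j z => HH m N T j z v) e l u) v) =
      AA A v l (word (fun i => AA A v i) e l (vecOf (m v) (N v) u)) := fun u hu => by
    rw [h.HH_vec hl v _ (word_lt (k := k) (fun j _ z _ => h.HH_lt j z v) e hu l hl.le),
      word_vec (k := k) (f := fun j u => AA A v j u) (fun j _ z _ => h.HH_lt j z v)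
        (fun j hj z hz => h.HH_vec hj v z hz) e hu l hl.le]
  constructor
  · intro h3 u
    obtain ⟨a, ha, ha2⟩ := A7.exists_code (h.h2 v) (N v) u
    have ha3 : vecOf (m v) (N v) a = u := ha2
    subst ha3
    rw [← hv1 a ha, ← hv2 a ha, h3 a ha.le ha]
  · intro h3 u _ hu
    refine vecOf_inj (h.pos v) (h.HH_lt _ _ _) (h.HH_lt _ _ _) ?_
    rw [hv1 u hu, hv2 u hu]
    exact h3 _

/-- the vectors of `SG` -/
theorem vset_SG (h : Cp P k m N B T R A c b₀ x) (v : Fin n → ℕ) :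
    vset (SG k m N T R b₀) (m v) (N v) v =
      gensP k (m v ^ N v) (ff A c v) (AA A v) (inp R (m v) (N v) v)
        (vecOf (m v) (N v) (b₀ v)) := by
  have hz0 := pow_pos (h.pos v) (N v)
  have hcm : ∀ {l j : ℕ}, l < k → j < l → ∀ e : ℕ → ℕ, vecOf (m v) (N v)
      (subc (m v) (N v) (GG m N T b₀ j (GG m N T b₀ l 0 v) v)
        (GG m N T b₀ l (word (fun j z => GG m N T b₀ j z v) e l 0) v)) =
      (ff A c v j (ff A c v l 0 + vecOf (m v) (N v) (b₀ v)) + vecOf (m v) (N v) (b₀ v)) -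
      (ff A c v l (word (fun i u => ff A c v i u + vecOf (m v) (N v) (b₀ v)) e l 0) +
        vecOf (m v) (N v) (b₀ v)) := by
    intro l j hl hj e
    rw [vecOf_subc (h.pos v), h.GG_vec (hj.trans hl) v _ (h.GG_lt _ _ _),
      h.GG_vec hl v _ (word_lt (k := k) (fun j _ z _ => h.GG_lt j z v) e hz0 l hl.le),
      h.GG_vec hl v _ hz0, word_vec (k := k)
        (f := fun i u => ff A c v i u + vecOf (m v) (N v) (b₀ v))
        (fun j _ z _ => h.GG_lt j z v) (fun j hj z hz => h.GG_vec hj v z hz) e hz0 l hl.le,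
      vecOf_zero]
  ext u
  constructor
  · rintro ⟨z, _, hS, rfl⟩
    rcases hS with ⟨b, _, b', _, hb, hb', hRb, hRb', rfl⟩ | ⟨l, j, e, he, hlin, rfl⟩
    · refine Or.inl ⟨_, ⟨b, hb, hRb, rfl⟩, _, ⟨b', hb', hRb', rfl⟩, ?_⟩
      exact vecOf_subc (h.pos v) _ _ _
    · refine Or.inr ⟨l, l.isLt, j, j.isLt, LinP.ext e, fun i hi => ?_,
        (h.lin_iff v l.isLt j.isLt _).1 hlin, hcm l.isLt j.isLt _⟩
      unfold LinP.ext
      rw [dif_pos hi]
      exact he _
  · rintro (⟨_, ⟨b, hb, hRb, rfl⟩, _, ⟨b', hb', hRb', rfl⟩, rfl⟩ | ⟨l, hl, j, hj, e, he, hlin, rfl⟩)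
    · exact ⟨_, subc_lt (h.pos v) _ _ _, Or.inl ⟨b, hb.le, b', hb'.le, hb, hb', hRb, hRb', rfl⟩,
        (vecOf_subc (h.pos v) _ _ _).symm⟩
    · have he' : ∀ i, i < l → LinP.ext (fun i : Fin l => e i) i = e i := fun i hi => by
        unfold LinP.ext
        rw [dif_pos hi]
      refine ⟨_, subc_lt (h.pos v) _ _ _, Or.inr ⟨⟨l, hl⟩, ⟨j, hj⟩, fun i => e i,
        fun i => he i i.isLt, (h.lin_iff v hl hj _).2 fun u => ?_, rfl⟩, ?_⟩
      · rw [word_congr _ he']
        exact hlin u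
      · show _ = vecOf (m v) (N v)
          (subc (m v) (N v) (GG m N T b₀ j (GG m N T b₀ l 0 v) v)
            (GG m N T b₀ l (word (fun j z => GG m N T b₀ j z v)
              (LinP.ext fun i : Fin l => e i) l 0) v))
        rw [hcm hl hj, word_congr _ he']

/-- membership in `W` -/
theorem W_delta (h : Cp P k m N B T R A c b₀ x) :
    Delta0 (n + 1) (fun w => vecOf (m fun i => w i.succ) (N fun i => w i.succ) (w 0) ∈
      WP k (m (fun i => w i.succ) ^ N (fun i => w i.succ)) (ff A c fun i => w i.succ)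
        (AA A fun i => w i.succ) (inp R (m fun i => w i.succ) (N fun i => w i.succ) fun i => w i.succ)
        (vecOf (m fun i => w i.succ) (N fun i => w i.succ) (b₀ fun i => w i.succ))) := by
  have hc1 := cset_delta (k := k) h.hL h.SG_delta (F := HH m N T)
    (fun j _ v z _ => h.HH_lt j z v) (fun j hj => h.HH_itr hj) k le_rfl
  have hc2 := closure_delta h.hm h.hN h.hB h.h2 h.hmN
    (S := fun z v => cset (m v ^ N v) (SG k m N T R b₀) (HH m N T) v k z) hc1
  refine hc2.of_iff fun w => ?_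
  set v : Fin n → ℕ := fun i => w i.succ with hv
  have e : vset (fun z v => cset (m v ^ N v) (SG k m N T R b₀) (HH m N T) v k z) (m v) (N v) v =
      iterSets (gensP k (m v ^ N v) (ff A c v) (AA A v) (inp R (m v) (N v) v) (vecOf (m v) (N v) (b₀ v)))
        (fun j => AA A v j) k := by
    rw [← h.vset_SG v]
    exact vset_cset (fun j _ z _ => h.HH_lt j z v) (fun j hj z hz => h.HH_vec hj v z hz) k le_rfl
  rw [e]
  rfl

/-- the codes of `x + W` -/
theorem S1_delta (h : Cp P k m N B T R A c b₀ x) :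
    Delta0 (n + 1) (fun w => w 0 < m (fun i => w i.succ) ^ N (fun i => w i.succ) ∧
      vecOf (m fun i => w i.succ) (N fun i => w i.succ) (w 0) -
        vecOf (m fun i => w i.succ) (N fun i => w i.succ) (x fun i => w i.succ) ∈
      WP k (m (fun i => w i.succ) ^ N (fun i => w i.succ)) (ff A c fun i => w i.succ)
        (AA A fun i => w i.succ) (inp R (m fun i => w i.succ) (N fun i => w i.succ) fun i => w i.succ)
        (vecOf (m fun i => w i.succ) (N fun i => w i.succ) (b₀ fun i => w i.succ))) := by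
  have hs := subc_def (n := n + 1) h.hm.weak h.hN.weak h.hB.weak (a := fun w => w 0)
    (DFun.proj 0) h.hx.weak (fun _ => h.h2 _) fun _ => h.hmN _
  have h3 := h.W_delta.subst (n := n + 1) (h := Fin.cons
    (fun w => subc (m fun i => w i.succ) (N fun i => w i.succ) (w 0) (x fun i => w i.succ))
    (fun i w => w i.succ)) (fun i => by
      refine Fin.cases ?_ (fun j => ?_) i
      · exact hs
      · exact DFun.proj _)
  refine ((Delta0.ltFun (DFun.proj 0) h.hL.weak).and h3).of_iff fun w => ?_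
  refine and_congr_right fun _ => ?_
  rw [← vecOf_subc (h.pos _)]
  rfl

end Cp

/-- the codes of `x + W` -/
def S1 (k : ℕ) (m N : (Fin n → ℕ) → ℕ) (R : (Fin (n + 1) → ℕ) → Prop)
    (A : ∀ v, ℕ → Matrix (Fin (N v)) (Fin (N v)) (ZMod (m v)))
    (c : ∀ v, ℕ → Fin (N v) → ZMod (m v)) (b₀ x : (Fin n → ℕ) → ℕ) (z : ℕ) (v : Fin n → ℕ) : Prop :=
  z < m v ^ N v ∧ vecOf (m v) (N v) z - vecOf (m v) (N v) (x v) ∈
    WP k (m v ^ N v) (ff A c v) (AA A v) (inp R (m v) (N v) v) (vecOf (m v) (N v) (b₀ v))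

/-- the codes of `OK` -/
def OC (k : ℕ) (m N : (Fin n → ℕ) → ℕ) (T : ℕ → ℕ → (Fin n → ℕ) → ℕ)
    (R : (Fin (n + 1) → ℕ) → Prop) (A : ∀ v, ℕ → Matrix (Fin (N v)) (Fin (N v)) (ZMod (m v)))
    (c : ∀ v, ℕ → Fin (N v) → ZMod (m v)) (b₀ x : (Fin n → ℕ) → ℕ) (l z : ℕ) (v : Fin n → ℕ) :
    Prop := cset (m v ^ N v) (S1 k m N R A c b₀ x) (GG m N T b₀) v l z

namespace Cp

theorem OC_delta (h : Cp P k m N B T R A c b₀ x) {l : ℕ} (hl : l ≤ k) :
    Delta0 (n + 1) (fun w => OC k m N T R A c b₀ x l (w 0) (fun i => w i.succ)) :=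
  cset_delta (k := k) h.hL (S := S1 k m N R A c b₀ x) h.S1_delta (F := GG m N T b₀)
    (fun j _ v z _ => h.GG_lt j z v) (fun j hj => h.GG_itr hj) l hl

/-- the vectors of `OC` -/
theorem vset_OC (h : Cp P k m N B T R A c b₀ x) (v : Fin n → ℕ) {l : ℕ} (hl : l ≤ k) :
    vset (OC k m N T R A c b₀ x l) (m v) (N v) v =
      OP k (m v ^ N v) (ff A c v) (AA A v) (inp R (m v) (N v) v) (vecOf (m v) (N v) (b₀ v))
        (vecOf (m v) (N v) (x v)) l := by
  have e1 : vset (S1 k m N R A c b₀ x) (m v) (N v) v = {u | u - vecOf (m v) (N v) (x v) ∈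
      WP k (m v ^ N v) (ff A c v) (AA A v) (inp R (m v) (N v) v) (vecOf (m v) (N v) (b₀ v))} := by
    ext u
    constructor
    · rintro ⟨z, _, hS, rfl⟩
      exact hS.2
    · intro hu
      obtain ⟨z, hz, hz2⟩ := A7.exists_code (h.h2 v) (N v) u
      have hz3 : vecOf (m v) (N v) z = u := hz2
      subst hz3
      exact ⟨z, hz, ⟨hz, hu⟩, rfl⟩
  unfold OP
  rw [← e1]
  exact vset_cset (m := m v) (N := N v) (S := S1 k m N R A c b₀ x) (F := GG m N T b₀) (v := v)
    (f := fun j u => ff A c v j u + vecOf (m v) (N v) (b₀ v))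
    (fun j _ z _ => h.GG_lt j z v) (fun j hj z hz => h.GG_vec hj v z hz) l hl

theorem OC_iff (h : Cp P k m N B T R A c b₀ x) {v : Fin n → ℕ} {l z : ℕ} (hl : l ≤ k)
    (hz : z < m v ^ N v) : OC k m N T R A c b₀ x l z v ↔ vecOf (m v) (N v) z ∈
      OP k (m v ^ N v) (ff A c v) (AA A v) (inp R (m v) (N v) v) (vecOf (m v) (N v) (b₀ v))
        (vecOf (m v) (N v) (x v)) l := by
  rw [← h.vset_OC v hl, mem_vset (h.pos v) hz]

theorem OC_lt (h : Cp P k m N B T R A c b₀ x) {v : Fin n → ℕ} {l z : ℕ} (hl : l ≤ k)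
    (hz : OC k m N T R A c b₀ x l z v) : z < m v ^ N v :=
  cset_lt (k := k) (fun j _ z _ => h.GG_lt j z v) (fun _ hS => hS.1) l hl z hz

theorem ff_inj (h : Cp P k m N B T R A c b₀ x) (v : Fin n → ℕ) {j : ℕ} (hj : j < k) :
    Function.Injective (ff A c v j) := by
  intro u w huw
  obtain ⟨a, ha, ha2⟩ := A7.exists_code (h.h2 v) (N v) u
  obtain ⟨b, hb, hb2⟩ := A7.exists_code (h.h2 v) (N v) w
  have ha3 : vecOf (m v) (N v) a = u := ha2
  have hb3 : vecOf (m v) (N v) b = w := hb2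
  subst ha3
  subst hb3
  have h3 : vecOf (m v) (N v) (T j a v) = vecOf (m v) (N v) (T j b v) := by
    rw [h.hA v j hj a ha, h.hA v j hj b hb]
    exact huw
  rw [h.hinj j hj v a b ha hb (vecOf_inj (h.pos v) (h.hTb j hj v a ha) (h.hTb j hj v b hb) h3)]

theorem ff_sub (v : Fin n → ℕ) (j : ℕ) (u w : Fin (N v) → ZMod (m v)) :
    ff A c v j u - ff A c v j w = AA A v j (u - w) := by
  show ((A v j).mulVec u + c v j) - ((A v j).mulVec w + c v j) = (A v j).mulVec (u - w)
  rw [Matrix.mulVec_sub]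
  abel

theorem card_V (h : Cp P k m N B T R A c b₀ x) (v : Fin n → ℕ) :
    Nat.card (Fin (N v) → ZMod (m v)) = m v ^ N v := by
  have : NeZero (m v) := ⟨(h.pos v).ne'⟩
  rw [Nat.card_eq_fintype_card, Fintype.card_fun, Fintype.card_fin, ZMod.card]

/-- the periods -/
theorem exists_period (h : Cp P k m N B T R A c b₀ x) (v : Fin n → ℕ) {l : ℕ} (hl : l < k) :
    ∃ p, 1 ≤ p ∧ p ≤ m v ^ N v ∧
      OC k m N T R A c b₀ x l (Itr (m v ^ N v) (fun z => GG m N T b₀ l z v) p (x v)) v := by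
  have : NeZero (m v) := ⟨(h.pos v).ne'⟩
  obtain ⟨p, hp1, hp2, hp3⟩ := period_OP (k := k) (E := m v ^ N v) (f := ff A c v) (A := AA A v)
    (R := inp R (m v) (N v) v) (b₀ := vecOf (m v) (N v) (b₀ v)) (vecOf (m v) (N v) (x v)) (l := l)
    (h.ff_inj v hl)
  rw [h.card_V v] at hp2
  refine ⟨p, hp1, hp2, ?_⟩
  rw [Itr, if_pos (h.hxb v), h.OC_iff hl.le (iter_bd (h.hxb v) (fun z _ => h.GG_lt l z v) p),
    iter_vecOf (F := fun u => ff A c v l u + vecOf (m v) (N v) (b₀ v)) (h.hxb v)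
      (fun z _ => h.GG_lt l z v) (fun z hz => h.GG_vec hl v z hz) p]
  exact hp3

open Classical in
/-- the period number `l` -/
theorem card_dfun (h : Cp P k m N B T R A c b₀ x) : ∀ l, l ≤ k →
    DFun n (fun v => Nat.card (OP k (m v ^ N v) (ff A c v) (AA A v) (inp R (m v) (N v) v)
      (vecOf (m v) (N v) (b₀ v)) (vecOf (m v) (N v) (x v)) l)) := by
  intro l
  induction l with
  | zero =>
    intro _
    have e : (fun v => Nat.card (OP k (m v ^ N v) (ff A c v) (AA A v) (inp R (m v) (N v) v)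
        (vecOf (m v) (N v) (b₀ v)) (vecOf (m v) (N v) (x v)) 0)) = fun v => Nat.card
          (WP k (m v ^ N v) (ff A c v) (AA A v) (inp R (m v) (N v) v) (vecOf (m v) (N v) (b₀ v))) := by
      funext v
      exact card_OP_zero _
    rw [e]
    exact card_sub_vec h.hm h.hN h.hB h.h2 h.hmN h.W_delta
  | succ l ih =>
    intro hl
    have h1 := ih (by omega)
    obtain ⟨Q, hQ⟩ : ∃ Q : ℕ → (Fin n → ℕ) → Prop, Q = fun p v => 1 ≤ p ∧
      OC k m N T R A c b₀ x l (Itr (m v ^ N v) (fun z => GG m N T b₀ l z v) p (x v)) v := ⟨_, rfl⟩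
    have hex : ∀ v, ∃ p, Q p v := fun v => by
      obtain ⟨p, hp1, _, hp3⟩ := h.exists_period v hl
      rw [hQ]
      exact ⟨p, hp1, hp3⟩
    have hIt : DFun (n + 1) (fun w => Itr (m (fun i => w i.succ) ^ N (fun i => w i.succ))
        (fun z => GG m N T b₀ l z fun i => w i.succ) (w 0) (x fun i => w i.succ)) :=
      (h.GG_itr hl).comp (n := n + 1) (h := Fin.cons (fun w => w 0)
        (Fin.cons (fun w => x fun i => w i.succ) fun i w => w i.succ)) (fun i => by
          refine Fin.cases ?_ (fun i => ?_) i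
          · exact DFun.proj _
          refine Fin.cases ?_ (fun i => ?_) i
          · exact h.hx.weak
          · exact DFun.proj _)
    have hOC : Delta0 (n + 1) (fun w => OC k m N T R A c b₀ x l
        (Itr (m (fun i => w i.succ) ^ N (fun i => w i.succ))
        (fun z => GG m N T b₀ l z fun i => w i.succ) (w 0) (x fun i => w i.succ))
        (fun i => w i.succ)) :=
      (h.OC_delta (l := l) (by omega)).subst (n := n + 1) (h := Fin.cons
        (fun w => Itr (m (fun i => w i.succ) ^ N (fun i => w i.succ))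
          (fun z => GG m N T b₀ l z fun i => w i.succ) (w 0) (x fun i => w i.succ))
        fun i w => w i.succ) (fun i => by
          refine Fin.cases ?_ (fun i => ?_) i
          · exact hIt
          · exact DFun.proj _)
    have hQd : Delta0 (n + 1) (fun w => Q (w 0) (fun i => w i.succ)) := by
      rw [hQ]
      exact (Delta0.leFun (DFun.const 1) (DFun.proj 0)).and hOC
    have hp : DFun n (fun v => Nat.find (hex v)) := by
      refine least_dfun h.hL hQd fun v => Or.inl ⟨Nat.find_spec (hex v), ?_,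
        fun s hs => Nat.find_min (hex v) hs⟩
      obtain ⟨p, hp1, hp2, hp3⟩ := h.exists_period v hl
      refine (Nat.find_min' (hex v) (?_ : Q p v)).trans hp2
      rw [hQ]
      exact ⟨hp1, hp3⟩
    have h2 := hp.mul h1
    refine cast (congrArg (DFun n) ?_) h2
    funext v
    have : NeZero (m v) := ⟨(h.pos v).ne'⟩
    have hconv : ∀ p, OC k m N T R A c b₀ x l
        (Itr (m v ^ N v) (fun z => GG m N T b₀ l z v) p (x v)) v ↔
        (fun u => ff A c v l u + vecOf (m v) (N v) (b₀ v))^[p] (vecOf (m v) (N v) (x v)) ∈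
        OP k (m v ^ N v) (ff A c v) (AA A v) (inp R (m v) (N v) v) (vecOf (m v) (N v) (b₀ v))
          (vecOf (m v) (N v) (x v)) l := by
      intro p
      rw [Itr, if_pos (h.hxb v), h.OC_iff (by omega : l ≤ k)
        (iter_bd (h.hxb v) (fun z _ => h.GG_lt l z v) p),
        iter_vecOf (F := fun u => ff A c v l u + vecOf (m v) (N v) (b₀ v)) (h.hxb v)
          (fun z _ => h.GG_lt l z v) (fun z hz => h.GG_vec hl v z hz) p]
    have hQi : ∀ p, Q p v ↔ 1 ≤ p ∧ OC k m N T R A c b₀ x l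
        (Itr (m v ^ N v) (fun z => GG m N T b₀ l z v) p (x v)) v := fun p => by rw [hQ]
    have hs := (hQi _).1 (Nat.find_spec (hex v))
    have hmn : ∀ s, s < Nat.find (hex v) → ¬ (1 ≤ s ∧ OC k m N T R A c b₀ x l
        (Itr (m v ^ N v) (fun z => GG m N T b₀ l z v) s (x v)) v) := fun s hs hs2 =>
      Nat.find_min (hex v) hs ((hQi s).2 hs2)
    refine (card_OP_succ (fun j hj => h.ff_inj v hj) (fun j _ u w => ff_sub v j u w)
      (h.hn v) (vecOf (m v) (N v) (x v)) hl hs.1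
      ((hconv _).1 hs.2) fun s hs1 hs2 hs3 => hmn s hs2 ⟨hs1, (hconv s).2 hs3⟩).symm

end Cp

end

end Pool.Agent.LinP
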