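import Pool.Agent.LinK.K4
import Pool.Agent.LinP.P2
import Pool.Agent.LinP.P3

/-!
# Package LinP-P4: polycyclic families of affine bijections with inputs, the theorem
-/

set_option autoImplicit false

namespace Pool.Agent.LinP

open Finset Pool.Agent.Grz Pool.Agent.GAvg Pool.Agent.PTr Pool.Agent.MTr
open Pool.Agent.LPC Pool.Agent.ECD Pool.Agent.LinU
open Pool.Agent.LinK (least_dfun ff AA StK code_reachK)

variable {P : ∀ m N : ℕ, ℕ → Matrix (Fin N) (Fin N) (ZMod m) → Prop}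
  {n k : ℕ} {m N B x y : (Fin n → ℕ) → ℕ} {T : ℕ → ℕ → (Fin n → ℕ) → ℕ}
  {R : (Fin (n + 1) → ℕ) → Prop}

open Classical in
/-- **Reachability and the number of the reachable points**, `2 ≤ m`. -/
theorem reachP2 (hI : GoodIter P) (hk : 1 ≤ k) (hm : DFun n m) (hN : DFun n N) (hB : DFun n B)
    (hx : DFun n x) (hy : DFun n y)
    (hT : ∀ j, j < k → DFun (n + 1) (fun w => T j (w 0) (fun i => w i.succ)))
    (hR : Delta0 (n + 1) R) (h2 : ∀ v, 2 ≤ m v) (hmN : ∀ v, m v ^ N v ≤ B v)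
    (hTb : ∀ j, j < k → ∀ v z, z < m v ^ N v → T j z v < m v ^ N v)
    (haff : ∀ v, ∃ (A : ℕ → Matrix (Fin (N v)) (Fin (N v)) (ZMod (m v)))
      (c : ℕ → Fin (N v) → ZMod (m v)), (∀ l, l < k → ∀ j, j < l → ∃ M ∈ Submonoid.closure {X | ∃ i, i < l ∧ X = A i},
        A j * A l = A l * M) ∧
      ∀ j, j < k → P (m v) (N v) (B v) (A j) ∧ ∀ z, z < m v ^ N v →
        vecOf (m v) (N v) (T j z v) = (A j).mulVec (vecOf (m v) (N v) z) + c j)
    (hinj : ∀ j, j < k → ∀ v z z', z < m v ^ N v → z' < m v ^ N v → T j z v = T j z' v → z = z')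
    (hxb : ∀ v, x v < m v ^ N v) :
    Delta0 n (fun v => Relation.ReflTransGen
      (StK k (m v) (N v) (fun j z => T j z v) R v) (x v) (y v)) ∧
    DFun n (fun v => Nat.card {z // Relation.ReflTransGen
      (StK k (m v) (N v) (fun j z => T j z v) R v) (x v) z}) := by
  choose A c hcomm hPA using haff
  have h0 : ∀ v, 0 < m v := fun v => lt_of_lt_of_le (by norm_num) (h2 v)
  have hL : DFun n (fun v => m v ^ N v) := dfun_powLe hm hN hB hmN
  have hRb : Delta0 (n + 1) (fun w => R (Fin.cons (w 0) fun i => w i.succ)) := by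
    refine hR.of_iff fun w => ?_
    rw [show (Fin.cons (w 0) fun i => w i.succ : Fin (n + 1) → ℕ) = w from Fin.cons_self_tail w]
  -- the least input
  obtain ⟨b₀, hb₀⟩ : ∃ b₀ : (Fin n → ℕ) → ℕ, b₀ = fun v =>
      if h : ∃ b, b < m v ^ N v ∧ R (Fin.cons b v) then Nat.find h else 0 := ⟨_, rfl⟩
  have hb1 : ∀ v, (∃ b, b < m v ^ N v ∧ R (Fin.cons b v)) →
      b₀ v < m v ^ N v ∧ R (Fin.cons (b₀ v) v) := by
    intro v h
    have e : b₀ v = Nat.find h := by rw [hb₀]; exact dif_pos h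
    rw [e]
    exact Nat.find_spec h
  have hbd : DFun n b₀ := by
    refine least_dfun hL (Q := fun b v => b < m v ^ N v ∧ R (Fin.cons b v))
      ((Delta0.ltFun (DFun.proj 0) hL.weak).and hRb) fun v => ?_
    by_cases h : ∃ b, b < m v ^ N v ∧ R (Fin.cons b v)
    · have e : b₀ v = Nat.find h := by rw [hb₀]; exact dif_pos h
      rw [e]
      exact Or.inl ⟨Nat.find_spec h, (Nat.find_spec h).1.le, fun s hs => Nat.find_min h hs⟩
    · have e : b₀ v = 0 := by rw [hb₀]; exact dif_neg h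
      exact Or.inr ⟨fun s _ hs => h ⟨s, hs⟩, e⟩
  have hAinj : ∀ v j, j < k → Function.Injective (A v j).mulVec := by
    intro v j hj u w huw
    obtain ⟨a, ha, ha2⟩ := A7.exists_code (h2 v) (N v) u
    obtain ⟨b, hb, hb2⟩ := A7.exists_code (h2 v) (N v) w
    have ha3 : vecOf (m v) (N v) a = u := ha2
    have hb3 : vecOf (m v) (N v) b = w := hb2
    subst ha3
    subst hb3
    have h3 : vecOf (m v) (N v) (T j a v) = vecOf (m v) (N v) (T j b v) := by
      rw [(hPA v j hj).2 a ha, (hPA v j hj).2 b hb, huw]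
    rw [hinj j hj v a b ha hb (vecOf_inj (h0 v) (hTb j hj v a ha) (hTb j hj v b hb) h3)]
  have hn : ∀ v l, l < k → ∀ j, j < l → ∃ e : ℕ → ℕ, (∀ i, i < l → e i ≤ m v ^ N v) ∧
      ∀ u, AA A v j (AA A v l u) = AA A v l (word (fun i => AA A v i) e l u) := by
    intro v l hl j hj
    have : NeZero (m v) := ⟨(h0 v).ne'⟩
    obtain ⟨e, he, h3⟩ := exists_word (hAinj v) (hcomm v) l hl j hj
    rw [Nat.card_zmod] at he
    exact ⟨e, he, h3⟩
  have hC : Cp P k m N B T R A c b₀ x := ⟨hI, hm, hN, hB, hbd, hx, hT, hR, h2, hmN, hTb,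
    hn, fun v j hj => (hPA v j hj).1, fun v j hj => (hPA v j hj).2, hinj, hxb⟩
  have hne : Delta0 n (fun v => ∃ b, b ≤ m v ^ N v ∧ (b < m v ^ N v ∧ R (Fin.cons b v))) :=
    Delta0.bexFun (P := fun b v => b < m v ^ N v ∧ R (Fin.cons b v)) hL
      ((Delta0.ltFun (DFun.proj 0) hL.weak).and hRb)
  have hne2 : Delta0 n (fun v => ∃ b, b < m v ^ N v ∧ R (Fin.cons b v)) :=
    hne.of_iff fun v => ⟨fun ⟨b, h⟩ => ⟨b, h.1.le, h⟩, fun ⟨b, _, h⟩ => ⟨b, h⟩⟩
  -- the points on vectors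
  have hreach : ∀ v, (∃ b, b < m v ^ N v ∧ R (Fin.cons b v)) → ∀ z, Relation.ReflTransGen
      (StK k (m v) (N v) (fun j z => T j z v) R v) (x v) z ↔ z < m v ^ N v ∧
        vecOf (m v) (N v) z ∈ OP k (m v ^ N v) (ff A c v) (AA A v) (inp R (m v) (N v) v)
          (vecOf (m v) (N v) (b₀ v)) (vecOf (m v) (N v) (x v)) k := by
    intro v hv z
    have : NeZero (m v) := ⟨(h0 v).ne'⟩
    rw [code_reachK (f := ff A c v) (h2 v) (fun j hj z hz => hC.hA v j hj z hz) (hxb v)]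
    refine and_congr_right fun _ => ?_
    have hmem : vecOf (m v) (N v) (b₀ v) ∈ inp R (m v) (N v) v :=
      ⟨b₀ v, (hb1 v hv).1, (hb1 v hv).2, rfl⟩
    exact reach_iffP hk (fun j hj => hC.ff_inj v hj) (fun j _ u w => Cp.ff_sub v j u w)
      (hC.hn v) hmem _ _
  have hnone : ∀ v, (¬ ∃ b, b < m v ^ N v ∧ R (Fin.cons b v)) → ∀ z, Relation.ReflTransGen
      (StK k (m v) (N v) (fun j z => T j z v) R v) (x v) z ↔ z = x v := by
    intro v hv z
    constructor
    · intro h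
      rcases Relation.ReflTransGen.cases_tail h with h | ⟨_, _, _, _, _, b, hb, hRb, _⟩
      · exact h
      · exact absurd ⟨b, hb, hRb⟩ hv
    · rintro rfl
      exact Relation.ReflTransGen.refl
  constructor
  · have hOC : Delta0 n (fun v => OC k m N T R A c b₀ x k (y v) v) :=
      (hC.OC_delta le_rfl).subst (n := n) (h := Fin.cons y fun i v => v i) (fun i => by
        refine Fin.cases ?_ (fun i => ?_) i
        · exact hy
        · exact DFun.proj _)
    refine ((hne2.and hOC).or (hne2.not.and (Delta0.eqFun hy hx))).of_iff fun v => ?_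
    by_cases hv : ∃ b, b < m v ^ N v ∧ R (Fin.cons b v)
    · rw [hreach v hv]
      constructor
      · rintro ⟨h1, h3⟩
        exact Or.inl ⟨hv, (hC.OC_iff le_rfl h1).2 h3⟩
      · rintro (⟨_, h3⟩ | ⟨h3, _⟩)
        · have h1 := hC.OC_lt le_rfl h3
          exact ⟨h1, (hC.OC_iff le_rfl h1).1 h3⟩
        · exact absurd hv h3
    · rw [hnone v hv]
      constructor
      · exact fun h => Or.inr ⟨hv, h⟩
      · rintro (⟨h3, _⟩ | ⟨_, h3⟩)
        · exact absurd h3 hv
        · exact h3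
  · refine cast (congrArg (DFun n) ?_) (DFun.ite hne2 (hC.card_dfun k le_rfl) (DFun.const 1))
    funext v
    by_cases hv : ∃ b, b < m v ^ N v ∧ R (Fin.cons b v)
    · rw [if_pos hv]
      refine (Nat.card_congr (Equiv.ofBijective (fun z => ⟨vecOf (m v) (N v) z.1,
        ((hreach v hv z.1).1 z.2).2⟩) ⟨?_, ?_⟩)).symm
      · rintro ⟨a, ha⟩ ⟨b, hb⟩ h
        have h3 := ((hreach v hv a).1 ha).1
        have h4 := ((hreach v hv b).1 hb).1
        simp only [Subtype.mk.injEq] at h ⊢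
        exact vecOf_inj (h0 v) h3 h4 h
      · rintro ⟨w, hw⟩
        obtain ⟨z, hz, hz2⟩ := A7.exists_code (h2 v) (N v) w
        have hz3 : vecOf (m v) (N v) z = w := hz2
        subst hz3
        exact ⟨⟨z, (hreach v hv z).2 ⟨hz, hw⟩⟩, rfl⟩
    · rw [if_neg hv]
      symm
      rw [Nat.card_eq_one_iff_unique]
      refine ⟨⟨?_⟩, ⟨⟨x v, Relation.ReflTransGen.refl⟩⟩⟩
      rintro ⟨a, ha⟩ ⟨b, hb⟩
      rw [Subtype.mk.injEq, (hnone v hv a).1 ha, (hnone v hv b).1 hb]

/-- **Reachability and the number of the reachable points**. -/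
theorem reachP (hI : GoodIter P) (hP0 : ∀ B A, 1 ≤ B → P 2 0 B A) (hk : 1 ≤ k) (hm : DFun n m)
    (hN : DFun n N) (hB : DFun n B) (hx : DFun n x) (hy : DFun n y)
    (hT : ∀ j, j < k → DFun (n + 1) (fun w => T j (w 0) (fun i => w i.succ)))
    (hR : Delta0 (n + 1) R) (hm0 : ∀ v, 0 < m v) (hmN : ∀ v, m v ^ N v ≤ B v)
    (hTb : ∀ j, j < k → ∀ v z, z < m v ^ N v → T j z v < m v ^ N v)
    (haff : ∀ v, ∃ (A : ℕ → Matrix (Fin (N v)) (Fin (N v)) (ZMod (m v)))
      (c : ℕ → Fin (N v) → ZMod (m v)), (∀ l, l < k → ∀ j, j < l → ∃ M ∈ Submonoid.closure {X | ∃ i, i < l ∧ X = A i},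
        A j * A l = A l * M) ∧
      ∀ j, j < k → P (m v) (N v) (B v) (A j) ∧ ∀ z, z < m v ^ N v →
        vecOf (m v) (N v) (T j z v) = (A j).mulVec (vecOf (m v) (N v) z) + c j)
    (hinj : ∀ j, j < k → ∀ v z z', z < m v ^ N v → z' < m v ^ N v → T j z v = T j z' v → z = z')
    (hxb : ∀ v, x v < m v ^ N v) :
    Delta0 n (fun v => Relation.ReflTransGen
      (StK k (m v) (N v) (fun j z => T j z v) R v) (x v) (y v)) ∧
    DFun n (fun v => Nat.card {z // Relation.ReflTransGen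
      (StK k (m v) (N v) (fun j z => T j z v) R v) (x v) z}) := by
  have d1 : Delta0 n (fun v => m v = 1) := Delta0.eqFun hm (DFun.const 1)
  obtain ⟨m', hm'⟩ : ∃ m' : (Fin n → ℕ) → ℕ, m' = fun v => if m v = 1 then 2 else m v := ⟨_, rfl⟩
  obtain ⟨N', hN'⟩ : ∃ N' : (Fin n → ℕ) → ℕ, N' = fun v => if m v = 1 then 0 else N v := ⟨_, rfl⟩
  have hmd : DFun n m' := by rw [hm']; exact DFun.ite d1 (DFun.const 2) hm
  have hNd : DFun n N' := by rw [hN']; exact DFun.ite d1 (DFun.const 0) hN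
  have hcase : ∀ v, (m v = 1 ∧ m' v = 2 ∧ N' v = 0) ∨ (m v ≠ 1 ∧ m' v = m v ∧ N' v = N v) := by
    intro v
    rw [hm', hN']
    by_cases h1 : m v = 1
    · exact Or.inl ⟨h1, if_pos h1, if_pos h1⟩
    · exact Or.inr ⟨h1, if_neg h1, if_neg h1⟩
  have hL' : ∀ v, m v = 1 → m v ^ N v = 1 := fun v h => by rw [h, one_pow]
  have hLL : ∀ v, m' v ^ N' v = m v ^ N v := fun v => by
    rcases hcase v with ⟨h1, e1, e2⟩ | ⟨h1, e1, e2⟩
    · rw [e1, e2, hL' v h1, pow_zero]
    · rw [e1, e2]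
  have h := reachP2 (x := x) (y := y) (T := T) (R := R) hI hk hmd hNd hB hx hy hT hR (fun v => by
      have := hm0 v
      rcases hcase v with ⟨h1, e1, e2⟩ | ⟨h1, e1, e2⟩ <;> omega) (fun v => by
      rw [hLL]
      exact hmN v) (fun j hj v z hz => by
      rw [hLL] at hz ⊢
      exact hTb j hj v z hz) (fun v => by
      rcases hcase v with ⟨h1, e1, e2⟩ | ⟨h1, e1, e2⟩
      · rw [e1, e2]
        exact ⟨0, 0, fun _ _ _ _ => ⟨1, one_mem _, Subsingleton.elim _ _⟩, fun j _ => ⟨hP0 _ _ ((pow_pos (hm0 v) (N v)).trans_le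
          (hmN v)), fun z _ => Subsingleton.elim _ _⟩⟩
      · rw [e1, e2]
        exact haff v) (fun j hj v z z' hz hz' he => by
      rw [hLL] at hz hz'
      exact hinj j hj v z z' hz hz' he) (fun v => by
      rw [hLL]
      exact hxb v)
  have hSt : ∀ v, StK k (m' v) (N' v) (fun j z => T j z v) R v =
      StK k (m v) (N v) (fun j z => T j z v) R v := by
    intro v
    funext z z'
    unfold StK
    rw [hLL]
    rcases hcase v with ⟨h1, e1, e2⟩ | ⟨h1, e1, e2⟩
    · rw [e1, e2]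
      have e : ∀ j z z' b : ℕ, (vecOf 2 0 z' = vecOf 2 0 (T j z v) + vecOf 2 0 b) ↔
          (vecOf (m v) (N v) z' = vecOf (m v) (N v) (T j z v) + vecOf (m v) (N v) b) := by
        intro j z z' b
        refine ⟨fun _ => ?_, fun _ => Subsingleton.elim _ _⟩
        funext i
        have : Subsingleton (ZMod (m v)) := by
          rw [h1]
          infer_instance
        exact Subsingleton.elim _ _
      simp only [e]
    · rw [e1, e2]
  simp only [hSt] at h
  exact h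

end Pool.Agent.LinP
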