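import Pool.Agent.LinP.P4

/-!
# Package LinP-P5: polycyclic families of affine bijections with inputs, indices in `Fin k`
-/

set_option autoImplicit false

namespace Pool.Agent.LinP

open Finset Pool.Agent.Grz Pool.Agent.GAvg Pool.Agent.PTr Pool.Agent.MTr
open Pool.Agent.LPC Pool.Agent.ECD Pool.Agent.LinU
open Pool.Agent.LinK (StK)

/-- **`k` affine bijections with inputs, polycyclic linear parts**: reachability and the number of the reachable
points. -/
theorem poly_reach {P : ∀ m N : ℕ, ℕ → Matrix (Fin N) (Fin N) (ZMod m) → Prop}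
    (hI : GoodIter P) (hP0 : ∀ B A, 1 ≤ B → P 2 0 B A) {k n : ℕ}
    {m N B x y : (Fin n → ℕ) → ℕ} {T : Fin k → ℕ → (Fin n → ℕ) → ℕ}
    {R : (Fin (n + 1) → ℕ) → Prop} (hm : DFun n m) (hN : DFun n N) (hB : DFun n B)
    (hx : DFun n x) (hy : DFun n y)
    (hT : ∀ j, DFun (n + 1) (fun w => T j (w 0) (fun i => w i.succ)))
    (hR : Delta0 (n + 1) R) (hm0 : ∀ v, 0 < m v) (hmN : ∀ v, m v ^ N v ≤ B v)
    (hTb : ∀ j v z, z < m v ^ N v → T j z v < m v ^ N v)
    (haff : ∀ v, ∃ (A : Fin k → Matrix (Fin (N v)) (Fin (N v)) (ZMod (m v)))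
      (c : Fin k → Fin (N v) → ZMod (m v)), (∀ i j, i < j → ∃ M ∈ Submonoid.closure {X | ∃ l, l < j ∧ X = A l}, A i * A j = A j * M) ∧
      ∀ j, P (m v) (N v) (B v) (A j) ∧ ∀ z, z < m v ^ N v →
        vecOf (m v) (N v) (T j z v) = (A j).mulVec (vecOf (m v) (N v) z) + c j)
    (hinj : ∀ j v z z', z < m v ^ N v → z' < m v ^ N v → T j z v = T j z' v → z = z')
    (hxb : ∀ v, x v < m v ^ N v) :
    Delta0 n (fun v => Relation.ReflTransGen (fun z z' => z' < m v ^ N v ∧ ∃ j, ∃ b,
      b < m v ^ N v ∧ R (Fin.cons b v) ∧ vecOf (m v) (N v) z' =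
        vecOf (m v) (N v) (T j z v) + vecOf (m v) (N v) b) (x v) (y v)) ∧
    DFun n (fun v => Nat.card {z // Relation.ReflTransGen (fun z z' => z' < m v ^ N v ∧ ∃ j, ∃ b,
      b < m v ^ N v ∧ R (Fin.cons b v) ∧ vecOf (m v) (N v) z' =
        vecOf (m v) (N v) (T j z v) + vecOf (m v) (N v) b) (x v) z}) := by
  rcases Nat.eq_zero_or_pos k with rfl | hk
  · have hnone : ∀ v z, Relation.ReflTransGen (fun z z' => z' < m v ^ N v ∧ ∃ j : Fin 0, ∃ b,
        b < m v ^ N v ∧ R (Fin.cons b v) ∧ vecOf (m v) (N v) z' =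
          vecOf (m v) (N v) (T j z v) + vecOf (m v) (N v) b) (x v) z ↔ z = x v := by
      intro v z
      constructor
      · intro h
        rcases Relation.ReflTransGen.cases_tail h with h | ⟨_, _, _, j, _⟩
        · exact h
        · exact j.elim0
      · rintro rfl
        exact Relation.ReflTransGen.refl
    constructor
    · exact (Delta0.eqFun hy hx).of_iff fun v => hnone v _
    · refine cast (congrArg (DFun n) ?_) (DFun.const (n := n) 1)
      funext v
      symm
      rw [Nat.card_eq_one_iff_unique]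
      refine ⟨⟨?_⟩, ⟨⟨x v, Relation.ReflTransGen.refl⟩⟩⟩
      rintro ⟨a, ha⟩ ⟨b, hb⟩
      rw [Subtype.mk.injEq, (hnone v a).1 ha, (hnone v b).1 hb]
  · obtain ⟨T', hT'⟩ : ∃ T' : ℕ → ℕ → (Fin n → ℕ) → ℕ, T' = fun j =>
        if h : j < k then T ⟨j, h⟩ else fun z _ => z := ⟨_, rfl⟩
    have eT : ∀ j (h : j < k), T' j = T ⟨j, h⟩ := fun j h => by rw [hT']; exact dif_pos h
    have h := reachP (P := P) (k := k) (m := m) (N := N) (B := B) (x := x) (y := y) (T := T')
      (R := R) hI hP0 hk hm hN hB hx hy (fun j hj => by rw [eT j hj]; exact hT _) hR hm0 hmN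
      (fun j hj v z hz => by rw [eT j hj]; exact hTb _ v z hz) (fun v => by
        obtain ⟨A, c, hcm, hA⟩ := haff v
        refine ⟨fun j => if h : j < k then A ⟨j, h⟩ else 0,
          fun j => if h : j < k then c ⟨j, h⟩ else 0, fun l hl j hj => ?_, fun j hj => ?_⟩
        · obtain ⟨M, hM, hM2⟩ := hcm ⟨j, hj.trans hl⟩ ⟨l, hl⟩ hj
          refine ⟨M, Submonoid.closure_mono ?_ hM, ?_⟩
          · rintro X ⟨i, hi, rfl⟩
            exact ⟨i, hi, by simp only [dif_pos i.isLt, Fin.eta]⟩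
          · simp only [dif_pos hl, dif_pos (hj.trans hl)]
            exact hM2
        · simp only [dif_pos hj, eT j hj]
          exact hA _) (fun j hj v z z' hz hz' he => by
        rw [eT j hj] at he
        exact hinj _ v z z' hz hz' he) hxb
    have hSt : ∀ v, StK k (m v) (N v) (fun j z => T' j z v) R v =
        fun z z' => z' < m v ^ N v ∧ ∃ j, ∃ b,
      b < m v ^ N v ∧ R (Fin.cons b v) ∧ vecOf (m v) (N v) z' =
        vecOf (m v) (N v) (T j z v) + vecOf (m v) (N v) b := by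
      intro v
      funext z z'
      refine propext (and_congr_right fun _ => ?_)
      constructor
      · rintro ⟨j, hj, b, hb, hRb, e⟩
        simp only [eT j hj] at e
        exact ⟨⟨j, hj⟩, b, hb, hRb, e⟩
      · rintro ⟨j, b, hb, hRb, e⟩
        refine ⟨j, j.isLt, b, hb, hRb, ?_⟩
        simp only [eT j j.isLt]
        exact e
    simp only [hSt] at h
    exact h

end Pool.Agent.LinP
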